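import Pool.Agent.FTU.Stmts

/-!
# Row FRM of FTU: the formal solution (helper75)
-/

set_option autoImplicit false

namespace Pool.Agent.FTU.H75

open Pool.Agent.FTU MvPolynomial

theorem der_xe {D : Derivation ℂ RR RR} (h : D xe = 0) (k : ℕ) (P : RR) :
    D (xe ^ k * P) = xe ^ k * D P := by
  have h1 : D (xe ^ k) = 0 := by
    rw [Derivation.leibniz_pow, h, smul_zero, smul_zero]
  rw [Derivation.leibniz, h1, smul_zero, add_zero, smul_eq_mul]

/-- **FRM** -/
theorem frm (hB : CjbStmt) (hS : SlvStmt) : FrmStmt := by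
  obtain ⟨b1, b2, b3, b4, b5, b6, b7, b8, b9, b10, b11, b12, b13, b14, b15, b16, b17⟩ := hB
  intro M m
  induction m with
  | zero =>
    refine ⟨xe ^ 1 * (C (-(Complex.I / 2)) * xb), 1, 0,
      w0 * (C (-(Complex.I / 2)) * xb) + (C (-Complex.I) * dt (xe ^ 1 * (C (-(Complex.I / 2)) * xb))
        + TT M 2 * (xe ^ 1 * (C (-(Complex.I / 2)) * xb)) + (TT M 0 - C Complex.I * TT M 1)),
      - (C (-Complex.I) * dt 1 + TT M 2)
        + (TT M 0 + C Complex.I * TT M 1) * (xe ^ 1 * (C (-(Complex.I / 2)) * xb)),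
      C (-(Complex.I / 2)) * xb, 0, Jt.zero_mem, by ring, by ring, ?_, ?_⟩
    · unfold D1
      have h1 : dz (1 : RR) = 0 := Derivation.map_one_eq_zero dz
      rw [h1]
      ring
    · unfold D2
      have h1 : db (C (-(Complex.I / 2)) * xb : RR) = C (-(Complex.I / 2)) := by
        rw [Derivation.leibniz, b15]
        have h2 : db (C (-(Complex.I / 2)) : RR) = 0 := Derivation.map_algebraMap db _
        rw [h2, smul_zero, add_zero, smul_eq_mul, mul_one]
      rw [der_xe b11, h1]
      have e1 : (C Complex.I * C (-(Complex.I / 2)) : RR) = C (1 / 2) := by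
        rw [← C_mul]
        congr 1
        rw [mul_neg, ← mul_div_assoc, Complex.I_mul_I]
        norm_num
      have e2 : (2 * (C Complex.I * C (-(Complex.I / 2))) : RR) = 1 := by
        rw [e1]
        have e3 : (2 : RR) = C 2 := by
          rw [map_ofNat]
        rw [e3, ← C_mul]
        norm_num
      unfold w0
      linear_combination (xe * xz * xb) * e1 - xe * e2
  | succ m ih =>
    obtain ⟨u, f, eps, s, t, g, h, hep, hu, hf, h1, h2⟩ := ih
    obtain ⟨u', f', b, c, hb, hc, e1, e2⟩ := hS s t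
    have hc' : xe ^ m * c ∈ Jt := Jt.mul_mem (Jt.pow_mem b4 m) hc
    refine ⟨u + xe ^ (m + 2) * u', f + (xe ^ (m + 1) * b + xe ^ (m + 2) * f'), eps - xe ^ m * c,
      w0 * u' + xe * (C (-Complex.I) * dt u' - eps * u' + TT M 2 * u')
        + c * (g + xe ^ (m + 1) * u') + (TT M 0 - C Complex.I * TT M 1) * (b + xe * f'),
      - w0 * f' - (C (-Complex.I) * (dt b + xe * dt f') - eps * (b + xe * f')
        + TT M 2 * (b + xe * f')) - c * (h + xe ^ m * b + xe ^ (m + 1) * f')
        + xe * (TT M 0 + C Complex.I * TT M 1) * u',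
      g + xe ^ (m + 1) * u', h + xe ^ m * b + xe ^ (m + 1) * f',
      Jt.sub_mem hep hc', ?_, ?_, ?_, ?_⟩
    · rw [hu]; ring
    · rw [hf]; ring
    · unfold D1 at h1 ⊢
      rw [map_add dz, map_add dz, map_add dt, der_xe b10, der_xe b10, der_xe b7, b2 b hb]
      linear_combination h1 + xe ^ (m + 2) * e1 + xe ^ (m + 2) * c * hu
    · unfold D2 at h2 ⊢
      rw [map_add db, map_add dt, map_add dt, der_xe b11, der_xe b7, der_xe b7]
      linear_combination h2 + xe ^ (m + 2) * e2 - xe ^ (m + 2) * c * hf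

end Pool.Agent.FTU.H75
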